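import Mathlib
import Pool.Graph.R_seed8.W387.Lower

set_option autoImplicit false

namespace Pool.Agent.Results.MP_67573e_al.QuadraticExponent

open Pool.Agent.W387

/-- the words `ww k` need at least `mu ^ (k (k+3) / 2) / 2` relators -/
theorem lower_quad (k : ℕ) (L : List (FreeGroup (Fin 14) × FreeGroup (Fin 14)))
    (h2 : ∀ p ∈ L, p.2 ∈ RL ∨ p.2⁻¹ ∈ RL)
    (h3 : (L.map (fun p => p.1 * p.2 * p.1⁻¹)).prod = ww k) :
    ((1 + Real.sqrt 5) / 2) ^ (k * (k + 3) / 2) ≤ 2 * (L.length : ℝ) := by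
  obtain ⟨e, he, h4⟩ := act14_prod L h2
  have h5 := h4 0
  rw [h3, act14_ww] at h5
  have h6 : mu ^ ee k = e := by
    have := congrArg Prod.snd h5
    simpa using this
  have h9 : |e| = mu ^ ee k := by
    rw [← h6]
    exact abs_of_pos (pow_pos mu_pos _)
  have h10 : k * (k + 3) / 2 = ee k := by
    have := ee_eq k
    omega
  rw [h10]
  rw [h9] at he
  exact he

/-- Some group acting properly and cocompactly on a CAT(0) cube complex (through its median graph)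
has a finitely presented subgroup whose Dehn function is at least exponential of a quadratic:
for every `k` there is a null-homotopic word of length at most `8 k + 4` all of whose expressions as a
product of conjugates of relators have at least `((1 + √5)/2) ^ (k (k+3)/2) / 2` factors. -/
theorem result :
  ∃ (G : Type) (_ : Group G) (V : Type) (_ : MulAction G V) (Γ : SimpleGraph V),
    Nonempty V ∧ Γ.Connected ∧
    (∀ v : V, (Γ.neighborSet v).Finite) ∧
    (∀ x y z : V, ∃! m : V,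
        Γ.dist x m + Γ.dist m y = Γ.dist x y ∧
        Γ.dist y m + Γ.dist m z = Γ.dist y z ∧
        Γ.dist x m + Γ.dist m z = Γ.dist x z) ∧
    (∀ (g : G) (u v : V), Γ.Adj u v → Γ.Adj (g • u) (g • v)) ∧
    (∀ v : V, (MulAction.stabilizer G v : Set G).Finite) ∧
    (∃ S : Finset V, ∀ v : V, ∃ g : G, ∃ s ∈ S, g • s = v) ∧
    ∃ (H : Subgroup G) (R : Finset (FreeGroup (Fin 14)))
      (φ : FreeGroup (Fin 14) →* G),
      φ.range = H ∧
      φ.ker = Subgroup.normalClosure (R : Set (FreeGroup (Fin 14))) ∧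
      (∀ k : ℕ, ∃ w ∈ φ.ker, w.toWord.length ≤ 8 * k + 4 ∧
        ∀ L : List (FreeGroup (Fin 14) × FreeGroup (Fin 14)),
          (∀ p ∈ L, p.2 ∈ R ∨ p.2⁻¹ ∈ R) →
          (L.map (fun p => p.1 * p.2 * p.1⁻¹)).prod = w →
          ((1 + Real.sqrt 5) / 2) ^ (k * (k + 3) / 2) ≤ 2 * (L.length : ℝ)) ∧
      (∃ c : ℝ, 0 < c ∧ ∀ m : ℕ, 12 ≤ m → ∃ w ∈ φ.ker, w.toWord.length ≤ m ∧
        ∀ L : List (FreeGroup (Fin 14) × FreeGroup (Fin 14)),
          (∀ p ∈ L, p.2 ∈ R ∨ p.2⁻¹ ∈ R) →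
          (L.map (fun p => p.1 * p.2 * p.1⁻¹)).prod = w →
          Real.exp (c * (m : ℝ) ^ 2) ≤ (L.length : ℝ)) := by
  obtain ⟨V, inst, Γ, h1, h2, h3, h4, h5, h6, h7⟩ :=
    Pool.Agent.W387.SqSys.geom Pool.Agent.W387.X3
  have key : ∀ k : ℕ, ww k ∈ phi.ker ∧ (ww k).toWord.length ≤ 8 * k + 4 ∧
      ∀ L : List (FreeGroup (Fin 14) × FreeGroup (Fin 14)),
        (∀ p ∈ L, p.2 ∈ RL.toFinset ∨ p.2⁻¹ ∈ RL.toFinset) →
        (L.map (fun p => p.1 * p.2 * p.1⁻¹)).prod = ww k →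
        ((1 + Real.sqrt 5) / 2) ^ (k * (k + 3) / 2) ≤ 2 * (L.length : ℝ) := by
    intro k
    refine ⟨ww_ker k, norm_ww k, ?_⟩
    intro L k2 k3
    refine lower_quad k L ?_ k3
    intro p hp
    rcases k2 p hp with h | h
    · exact Or.inl (List.mem_toFinset.mp h)
    · exact Or.inr (List.mem_toFinset.mp h)
  refine ⟨Pool.Agent.W387.GG, inferInstance, V, inst, Γ, h1, h2, h3, h4, h5, h6, h7,
    Pool.Agent.W387.phi.range, Pool.Agent.W387.RL.toFinset, Pool.Agent.W387.phi, rfl, ?_, ?_, ?_⟩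
  · rw [List.coe_toFinset]
    exact Pool.Agent.W387.phi_ker
  · intro k
    exact ⟨ww k, key k⟩
  · refine ⟨1 / 8000, by norm_num, ?_⟩
    intro m hm
    obtain ⟨hk1, hk2, hk3⟩ := key ((m - 4) / 8)
    refine ⟨_, hk1, by omega, ?_⟩
    intro L l1 l2
    have h8 := hk3 L l1 l2
    set n : ℕ := (m - 4) / 8 with hn
    have hn1 : 1 ≤ n := by omega
    have hmn : m ≤ 8 * n + 11 := by omega
    obtain ⟨q, hq⟩ : ∃ q : ℕ, n * (n + 3) / 2 = q := ⟨_, rfl⟩
    have hq2 : 2 * q = n * (n + 3) := by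
      have := ee_eq n
      omega
    rw [hq] at h8
    have hq3 : 2 ≤ q := by nlinarith
    -- `3/2 ≤ mu`, `exp (1/3) ≤ 3/2`
    have hmu : (3 / 2 : ℝ) ≤ (1 + Real.sqrt 5) / 2 := mu_gt.le
    have he3 : Real.exp (1 / 40) ≤ 21 / 20 := by
      have := Real.exp_bound_div_one_sub_of_interval (x := 1 / 40) (by norm_num) (by norm_num)
      linarith
    have h9 : (3 / 2 : ℝ) ^ q ≤ ((1 + Real.sqrt 5) / 2) ^ q :=
      pow_le_pow_left₀ (by norm_num) hmu _
    -- `2 * (21/20)^q ≤ (3/2)^q` for `2 ≤ q`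
    have h10 : 2 * (21 / 20 : ℝ) ^ q ≤ (3 / 2) ^ q := by
      obtain ⟨r, rfl⟩ := Nat.exists_eq_add_of_le hq3
      have : (21 / 20 : ℝ) ^ r ≤ (3 / 2) ^ r := pow_le_pow_left₀ (by norm_num) (by norm_num) _
      rw [pow_add, pow_add]
      nlinarith [pow_pos (show (0 : ℝ) < 21 / 20 by norm_num) r,
        pow_pos (show (0 : ℝ) < 3 / 2 by norm_num) r]
    have h11 : Real.exp (1 / 8000 * (m : ℝ) ^ 2) ≤ (21 / 20 : ℝ) ^ q := by
      calc Real.exp (1 / 8000 * (m : ℝ) ^ 2) ≤ Real.exp ((q : ℝ) * (1 / 40)) := by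
            apply Real.exp_le_exp.mpr
            have hm' : (m : ℝ) ≤ 8 * n + 11 := by exact_mod_cast hmn
            have hn' : (1 : ℝ) ≤ n := by exact_mod_cast hn1
            have hq' : (2 : ℝ) * q = n * (n + 3) := by exact_mod_cast hq2
            have hm0 : (0 : ℝ) ≤ m := by positivity
            have h12 : (m : ℝ) ^ 2 ≤ (8 * n + 11) ^ 2 := pow_le_pow_left₀ hm0 hm' 2
            nlinarith
        _ = Real.exp (1 / 40) ^ q := by rw [← Real.exp_nat_mul]
        _ ≤ _ := pow_le_pow_left₀ (Real.exp_pos _).le he3 _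
    linarith

end Pool.Agent.Results.MP_67573e_al.QuadraticExponent
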